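import Pool.Agent.Q115.RV.Single
import Pool.Agent.TH941.Newform

/-!
# Central values and one-sided bounds for the product of Birch and Swinnerton-Dyer, one exponent

`E : y² = x³ + a x + b` is an elliptic curve over `ℚ`, `a, b ∈ ℤ`, `N_p` is the number of points modulo
`p` (with the point at infinity) and `P(x) = ∏_{p ≤ x, p ∤ 2Δ} N_p / p`.  `F = L(E, s)` is the entire
continuation of the product over the primes `p ∤ 2Δ`, `r = ord_{s=1} F`, and `f` is the newform of `E`.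

Goldfeld (1982): if `P(x) ∼ C (log x)^ρ`, `C > 0`, then `F` has no zeros with `Re s > 1` and `ρ = r`.  Here
only the ratio `P(x^l) / P(x)` is considered, for ONE exponent `l > 1` (for instance `P(x²) / P(x)`), and
the bounds are one-sided and pointwise in `x`; no hypothesis of Riemann type is made.

* If `L(E, 1) = 0` then `limsup P(x^l) / P(x) ≥ l` for every `l > 1`; in general it is at least `l^r`.
* So if `P(x^l) ≤ K P(x)` for all large `x`, for ONE `l > 1` and one `K < l`, then `L(E, 1) ≠ 0` (hence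
  `E(ℚ)` is finite, by Gross-Zagier and Kolyvagin, and the conjecture holds for `E`) and moreover
  `F` has no zeros with `Re s > 1`; for the last conclusion any `K` will do.
* If there are no REAL zeros `> 1` and `P(x^l) ≥ c P(x)` for all large `x`, for one `l > 1` and one `c > 1`,
  then `L(E, 1) = 0`; if `c > 0`, then `F` has no zeros with `Re s > 1`.
* If `P(x^l) / P(x)` converges, then the limit is `l^r`.

The proof iterates `x ↦ x^l` and uses the theorems on all windows (`Pool.Agent.TH949.TX`).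
-/

set_option autoImplicit false

namespace Pool.Agent.Results.MP_8b7eba_nt.OneExponentOneSided

open Filter Topology Classical CongruenceSubgroup UpperHalfPlane
open scoped MatrixGroups

/-- `N_p`: the number of points of `y² = x³ + a x + b` modulo `p`, with the point at infinity. -/
noncomputable def numPoints (a b : ℤ) (p : ℕ) : ℕ :=
  Nat.card {q : ZMod p × ZMod p // q.2 ^ 2 = q.1 ^ 3 + (a : ZMod p) * q.1 + (b : ZMod p)} + 1

/-- `p` is a prime that does not divide `2 Δ`, where `Δ = -4 a³ - 27 b²`. -/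
def Good (a b : ℤ) (p : ℕ) : Prop :=
  p.Prime ∧ ¬ ((p : ℤ) ∣ 2 * (-4 * a ^ 3 - 27 * b ^ 2))

/-- The original Birch and Swinnerton-Dyer product `P(x) = ∏_{p ≤ x, p ∤ 2Δ} N_p / p`. -/
noncomputable def P (a b : ℤ) (x : ℝ) : ℝ :=
  ∏ p ∈ (Finset.range (⌊x⌋₊ + 1)).filter (Good a b), ((numPoints a b p : ℝ) / p)

/-- `F` is an entire function which for `Re s > 3/2` is the incomplete `L`-series
`∏_{p ∤ 2Δ} (1 - a_p p^{-s} + p^{1-2s})⁻¹`, `a_p = p + 1 - N_p`, of `y² = x³ + a x + b`. -/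
def IsLSeries (a b : ℤ) (F : ℂ → ℂ) : Prop :=
  Differentiable ℂ F ∧ ∀ s : ℂ, (3 : ℝ) / 2 < s.re →
    HasProd (fun p : ℕ => if Good a b p then
      (1 - ((p : ℂ) + 1 - (numPoints a b p : ℂ)) * (p : ℂ) ^ (-s) + (p : ℂ) ^ (1 - 2 * s))⁻¹ else 1)
      (F s)

/-- The `n`-th Fourier coefficient of `f`. -/
noncomputable def coef {N : ℕ} (f : CuspForm (Gamma0 N : Subgroup (GL (Fin 2) ℝ)) 2) (n : ℕ) : ℂ :=
  (qExpansion 1 f).coeff n

/-- `f ∈ S_2(Γ₀(N))` is the newform of the elliptic curve `E : y² = x³ + a x + b` of conductor `N`: the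
Fourier coefficients `c(n)` of `f` are real with `c(1) = 1`, they satisfy the Hecke relations
`c(mn) = c(m) c(n)` for coprime `m`, `n` and `c(p^(j+2)) = c(p) c(p^(j+1)) - p c(p^j)` (without the last
term if `p ∣ N`), `c(p) = a_p = p + 1 - N_p` for all primes `p ∤ 2Δ`, `|c(p)| ≤ 2 √p` for all
`p ∤ N` (Hasse) and `c(p) = 0, 1, -1` for `p ∣ N`. -/
structure IsNewformOf (a b : ℤ) (N : ℕ) (f : CuspForm (Gamma0 N : Subgroup (GL (Fin 2) ℝ)) 2) :
    Prop where
  one : coef f 1 = 1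
  real : ∀ n, (coef f n).im = 0
  mul : ∀ m n : ℕ, Nat.Coprime m n → coef f (m * n) = coef f m * coef f n
  pow : ∀ p j : ℕ, p.Prime → coef f (p ^ (j + 2)) = coef f p * coef f (p ^ (j + 1)) -
      (if p ∣ N then 0 else (p : ℂ) * coef f (p ^ j))
  points : ∀ p : ℕ, Good a b p → coef f p = (p : ℂ) + 1 - (numPoints a b p : ℂ)
  good : ∀ p : ℕ, p.Prime → ¬ p ∣ N → ‖coef f p‖ ≤ 2 * Real.sqrt p
  bad : ∀ p : ℕ, p.Prime → p ∣ N → coef f p = 0 ∨ coef f p = 1 ∨ coef f p = -1

/-! ### Translation to the definitions of the imported files -/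

variable {a b : ℤ}

theorem P_eq (x : ℝ) : P a b x = Pool.Agent.W263.BSD.bsdProduct a b x := by
  unfold P Pool.Agent.W263.BSD.bsdProduct numPoints Pool.Agent.W263.BSD.pointCount
  refine Finset.prod_congr rfl fun p _ => ?_
  push_cast
  rfl

theorem numPoints_sub (p : ℕ) : (p : ℂ) + 1 - (numPoints a b p : ℂ) =
    (p : ℂ) - (Pool.Agent.W263.BSD.pointCount a b p : ℂ) := by
  unfold numPoints Pool.Agent.W263.BSD.pointCount
  push_cast
  ring

theorem isLSeries {F : ℂ → ℂ} (hF : IsLSeries a b F) :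
    Pool.Agent.W263.BSD.IsLSeries a b F := by
  refine ⟨hF.1, fun s hs => ?_⟩
  have h := hF.2 s hs
  simp only [numPoints_sub] at h
  exact h

theorem hecke {N : ℕ} {f : CuspForm (Gamma0 N : Subgroup (GL (Fin 2) ℝ)) 2}
    (hf : IsNewformOf a b N f) : Pool.Agent.TH941.Hecke f where
  one := hf.one
  real := hf.real
  mul := hf.mul
  pow := hf.pow
  good := hf.good
  bad := fun p hp h => by
    rcases hf.bad p hp h with h1 | h1 | h1
    · have h2 : ‖coef f p‖ ≤ 1 := by rw [h1]; simp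
      exact h2
    · have h2 : ‖coef f p‖ ≤ 1 := by rw [h1]; simp
      exact h2
    · have h2 : ‖coef f p‖ ≤ 1 := by rw [h1]; simp
      exact h2

theorem hyp {N : ℕ} [NeZero N] {f : CuspForm (Gamma0 N : Subgroup (GL (Fin 2) ℝ)) 2}
    (hΔ : 4 * a ^ 3 + 27 * b ^ 2 ≠ 0) (hf : IsNewformOf a b N f) {F : ℂ → ℂ} (hF : IsLSeries a b F) {r : ℕ}
    (hr : analyticOrderAt F 1 = r) : Pool.Agent.TH949.TX.Hyp a b F r where
  disc := hΔ
  rs := (hecke hf).rsSum_tendsto hΔ fun p hp => (hf.points p hp).trans (numPoints_sub p)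
  gr := Pool.Agent.TH942.RZ.growth_newform hΔ (isLSeries hF) (hecke hf)
    fun p hp => (hf.points p hp).trans (numPoints_sub p)
  lser := isLSeries hF
  ord := hr

/-- `F` has no zeros with `Re s > 1`. -/
def NoZeros (F : ℂ → ℂ) : Prop := ∀ s : ℂ, 1 < s.re → F s ≠ 0

/-- `F` has no real zeros `> 1`. -/
def NoRealZeros (F : ℂ → ℂ) : Prop := ∀ s : ℝ, 1 < s → F s ≠ 0

/-- **One exponent, one-sided.** Let `r` be the order of `F` at `1` and `l > 1`.
(1) For every `ε > 0` there are arbitrarily large `x` with `P(x^l) > (l^r - ε) P(x)`.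
(2) If `F(1) = 0` then for every `ε > 0` there are arbitrarily large `x` with `P(x^l) > (l - ε) P(x)`.
(3) If `P(x^l) ≤ K P(x)` for all large `x`, then `F` has no zeros with `Re s > 1`; if `K < l`, then
moreover `F(1) ≠ 0`.
(4) If `F` has no real zeros `> 1`, then for every `ε > 0` there are arbitrarily large `x` with
`P(x^l) < (l^r + ε) P(x)`.
(5) If `F` has no real zeros `> 1`, `c > 0` and `P(x^l) ≥ c P(x)` for all large `x`, then `F` has no
zeros with `Re s > 1`; if `c > 1`, then moreover `F(1) = 0`.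
(6) If `P(x^l) / P(x)` converges to a real number `c`, then `F` has no zeros with `Re s > 1` and
`c = l^r`; in particular `F(1) ≠ 0` if and only if `c = 1`. -/
theorem result (a b : ℤ) (hΔ : 4 * a ^ 3 + 27 * b ^ 2 ≠ 0) (F : ℂ → ℂ) (hF : IsLSeries a b F)
    (N : ℕ) [NeZero N] (f : CuspForm (Gamma0 N : Subgroup (GL (Fin 2) ℝ)) 2)
    (hf : IsNewformOf a b N f) :
    ∃ r : ℕ, analyticOrderAt F 1 = r ∧ ∀ l : ℝ, 1 < l →
      (∀ ε : ℝ, 0 < ε → ∃ᶠ x : ℝ in atTop, (l ^ r - ε) * P a b x < P a b (x ^ l)) ∧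
      (F 1 = 0 → ∀ ε : ℝ, 0 < ε → ∃ᶠ x : ℝ in atTop, (l - ε) * P a b x < P a b (x ^ l)) ∧
      (∀ K : ℝ, (∀ᶠ x : ℝ in atTop, P a b (x ^ l) ≤ K * P a b x) →
        NoZeros F ∧ (K < l → F 1 ≠ 0)) ∧
      (NoRealZeros F →
        ∀ ε : ℝ, 0 < ε → ∃ᶠ x : ℝ in atTop, P a b (x ^ l) < (l ^ r + ε) * P a b x) ∧
      (NoRealZeros F → ∀ c : ℝ, 0 < c → (∀ᶠ x : ℝ in atTop, c * P a b x ≤ P a b (x ^ l)) →
        NoZeros F ∧ (1 < c → F 1 = 0)) ∧
      (∀ c : ℝ, Tendsto (fun x : ℝ => P a b (x ^ l) / P a b x) atTop (𝓝 c) →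
        NoZeros F ∧ c = l ^ r ∧ (F 1 ≠ 0 ↔ c = 1)) := by
  have hF' := isLSeries hF
  obtain ⟨r, hr⟩ := Pool.Agent.W263.BSD.order_finite hF'
  have H := hyp hΔ hf hF hr
  have hzero : F 1 = 0 ↔ r ≠ 0 := by
    have h1 : analyticOrderAt F 1 = 0 ↔ F 1 ≠ 0 := (hF.1.analyticAt 1).analyticOrderAt_eq_zero
    rw [hr] at h1
    have h2 : ((r : ℕ∞) = 0) ↔ r = 0 := by norm_cast
    rw [h2] at h1
    constructor
    · intro h h3
      exact h1.1 h3 h
    · intro h
      by_contra h3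
      exact h (h1.2 h3)
  refine ⟨r, hr, fun l hl => ?_⟩
  have up : ∀ ε : ℝ, 0 < ε → ∃ᶠ x : ℝ in atTop, (l ^ r - ε) * P a b x < P a b (x ^ l) := by
    simp only [P_eq]
    exact fun ε hε => Pool.Agent.Q115.RV.freq_ratio_up H hl hε
  have down : NoRealZeros F →
      ∀ ε : ℝ, 0 < ε → ∃ᶠ x : ℝ in atTop, P a b (x ^ l) < (l ^ r + ε) * P a b x := by
    simp only [P_eq]
    exact fun hreal ε hε => Pool.Agent.Q115.RV.freq_ratio_down H hreal hl hε
  have hpos : ∀ x : ℝ, 0 < P a b x := fun x => by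
    rw [P_eq]
    exact Pool.Agent.W263.BSD.bsdProduct_pos x
  have up1 : F 1 = 0 → ∀ ε : ℝ, 0 < ε →
      ∃ᶠ x : ℝ in atTop, (l - ε) * P a b x < P a b (x ^ l) := by
    intro h0 ε hε
    refine (up ε hε).mono fun x hx => lt_of_le_of_lt ?_ hx
    refine mul_le_mul_of_nonneg_right ?_ (hpos x).le
    have h2 : l ≤ l ^ r := le_self_pow₀ hl.le (hzero.1 h0)
    linarith
  refine ⟨up, up1, ?_, down, ?_, ?_⟩
  · intro K h
    refine ⟨?_, fun hK h0 => ?_⟩
    · simp only [P_eq] at h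
      exact Pool.Agent.Q115.RV.noZeros_upper hF' hl h
    · obtain ⟨x, h1, h2⟩ := ((up1 h0 (l - K) (by linarith)).and_eventually h).exists
      rw [sub_sub_cancel] at h1
      linarith
  · intro hreal c hc h
    refine ⟨?_, fun hc1 => ?_⟩
    · have h1 : ∀ᶠ x : ℝ in atTop, Pool.Agent.W263.BSD.bsdProduct a b x ≤
          c⁻¹ * Pool.Agent.W263.BSD.bsdProduct a b (x ^ l) := by
        filter_upwards [h] with x hx
        rw [P_eq, P_eq] at hx
        rw [inv_mul_eq_div, le_div_iff₀ hc, mul_comm]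
        exact hx
      exact Pool.Agent.Q115.RV.noZeros_lower hF' hreal hl h1
    · rw [hzero]
      intro hr0
      obtain ⟨x, h1, h2⟩ := ((down hreal (c - 1) (by linarith)).and_eventually h).exists
      rw [hr0, pow_zero, add_sub_cancel] at h1
      linarith
  · intro c h
    have h' : Tendsto (fun x : ℝ => Pool.Agent.W263.BSD.bsdProduct a b (x ^ l) /
        Pool.Agent.W263.BSD.bsdProduct a b x) atTop (𝓝 c) := by
      simpa only [P_eq] using h
    obtain ⟨h1, h2⟩ := Pool.Agent.Q115.RV.ratio_limit H hl h'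
    refine ⟨h1, h2, ?_⟩
    rw [h2]
    constructor
    · intro h3
      have h4 : r = 0 := by
        by_contra h5
        exact h3 (hzero.2 h5)
      rw [h4, pow_zero]
    · intro h3 h4
      have h5 : l ≤ l ^ r := le_self_pow₀ hl.le (hzero.1 h4)
      linarith

end Pool.Agent.Results.MP_8b7eba_nt.OneExponentOneSided
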