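import Pool.Agent.Q5.AP.WinQ

/-!
# One window of the product of Birch and Swinnerton-Dyer over `ℚ`: exact mean square and sharp bound

Let `E : y² = x³ + a x + b` be an elliptic curve over `ℚ`, `f` its newform, `Λ` its completed `L`-function, `F` the
entire continuation of its incomplete `L`-series `L(E, s)` (the Euler factors at the primes dividing `2Δ` are
removed), `N_p` the number of affine points modulo `p`, `P(x) = ∏_{p ≤ x} (N_p + 1)/p` and
`P*(x) = P(x) exp (∑_{√x < p ≤ x} (a_p² - 2p)/(2p²))`. For `0 < l < 1` let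

`W_l(x) = ∏_{x^l < p ≤ x} (N_p + 1)/p = P(x)/P(x^l)`,  `W*_l(x) = P*(x)/P*(x^l)`

be the parts of the products in the window `(x^l, x]`, `r = ord_{s=1} Λ`, `m_t` the order of `Λ` at `1 + it` and
`c_E = 2 Λ^(r+2)(1) / ((r+1) (r+2) Λ^(r)(1))`. The following holds for every such curve, without any hypothesis.

1. For each single `l` and each real `ρ` are equivalent: all zeros of `Λ` are on the line `Re s = 1` and `ρ = r`; the
   means `S(X) = (log X)⁻¹ ∫_e^X (log x · (log W*_l(x) - ρ log (1/l)))² dx/x` are bounded for large `X`; the sum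
   `V_l = ∑_{t ≠ 0} (m_t - m_{t/l})²/t²` converges, `V_l > 0` and `S(X) → V_l`. In this case the means with the
   additional factor `x^(-it)` in place of the square tend to `-i (m_t - m_{t/l})/t`.
2. For each `l`, `limsup S ≥ (1/l² - 1) c_E`.
3. There is a countable set `C` such that for each `l ∉ C` and each real `ρ`: `limsup S ≤ (1 + 1/l²) c_E` IF AND ONLY IF all
   zeros of `Λ` are on the line `Re s = 1`, all of them except perhaps `s = 1` are simple, and `ρ = r`; always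
   `limsup S ≥ (1 + 1/l²) c_E`; and if `Λ` has all its zeros on the line `Re s = 1` and `ρ = r`, then `c_E > 0` and
   `S(X) → (1 + 1/l²) (c_E + ∑_{t ≠ 0} m_t (m_t - 1)/t²)`.
4. For each `l`: the Riemann hypothesis for `E` and `L(E, 1) ≠ 0` hold together if and only if
   `(log X)⁻¹ ∫_e^X (log x · log W*_l(x))² dx/x` is bounded.

By 4, under the Riemann hypothesis for `E` the weak conjecture of Birch and Swinnerton-Dyer for `E` says: `E(ℚ)` is
finite if and only if `log W*_l(x) = O(1/log x)` in square mean, for one `l` (or every `l`). No leading coefficient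
and no constant `√2` enters. The same is proved for the original windows `W_l`, if
`log x · (q(x) - q(x^l)) → 0` with `q(x) = ∑_{√x < p ≤ x} (a_p² - 2p)/(2p²)`.

In `OneWindow` of this problem the windows are studied in logarithmic mean with the error `o(1)`; for number fields,
without `Λ`, see `ExactWindows` of problem `MP_cd906c_nt`. The sharp bound for the full product, where the leading
coefficient is a further parameter, is `SimpleZeros` of problem `MP_4a9ea6_nt`.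
-/

set_option autoImplicit false

namespace Pool.Agent.Results.MP_8b7eba_nt.SharpWindow

open Pool.Agent.W263.BSD Filter Topology Classical MeasureTheory Set Complex
open CongruenceSubgroup
open scoped MatrixGroups
open Pool.Agent.Results.MP_8b7eba_nt.OneWindow (window NoZeros)
open Pool.Agent.Results.MP_92892c_nt.ExactMeanSquareRational (squares mult meanSquare coefficient
  BoundedMeanSquare)
open Pool.Agent.Results.MP_4a9ea6_nt.SimpleZeros (IsFormOf IsCompleted RH Simple ord cE AtMost)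

/-- `W*_l(x) = P*(x)/P*(x^l)`. -/
noncomputable def windowStar (a b : ℤ) (l x : ℝ) : ℝ := bsdStar a b x / bsdStar a b (x ^ l)

/-- `log W*_l(x) - ρ log (1/l)` -/
noncomputable def errStar (a b : ℤ) (ρ l x : ℝ) : ℝ :=
  Real.log (windowStar a b l x) - ρ * Real.log (1 / l)

/-- `log W_l(x) - ρ log (1/l)` -/
noncomputable def err (a b : ℤ) (ρ l x : ℝ) : ℝ :=
  Real.log (window a b l x) - ρ * Real.log (1 / l)

/-- All zeros of `Λ` are on the line `Re s = 1`, and `ρ = ord_{s=1} Λ`. -/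
def OrderRH (Λ : ℂ → ℂ) (ρ : ℝ) : Prop := RH Λ ∧ ρ = ord Λ

/-- `V_l = ∑_{t ≠ 0} (m_t - m_{t/l})²/t²` converges, is positive and is the limit of the mean squares. -/
def WindowSquareLaw (Λ : ℂ → ℂ) (l : ℝ) (δ : ℝ → ℝ) : Prop :=
  ∃ V : ℝ, 0 < V ∧ HasSum (fun t : ℝ => (((mult Λ t : ℝ) - mult Λ (t / l)) / t) ^ 2) V ∧
    Tendsto (meanSquare δ) atTop (𝓝 V)

/-- For every real `t` the means of `log x · δ(x) x^(-it)` tend to `-i (m_t - m_{t/l})/t` (`0` for `t = 0`). -/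
def ReadsZeros (Λ : ℂ → ℂ) (l : ℝ) (δ : ℝ → ℝ) : Prop :=
  ∀ t : ℝ, Tendsto (coefficient δ t) atTop
    (𝓝 (-((((mult Λ t : ℂ) - mult Λ (t / l)) * I) / t)))

/-- The parts 1 and 2. -/
def Criterion (Λ : ℂ → ℂ) (ρ l : ℝ) (δ : ℝ → ℝ) : Prop :=
  List.TFAE [OrderRH Λ ρ, BoundedMeanSquare δ, WindowSquareLaw Λ l δ] ∧
  (OrderRH Λ ρ → ReadsZeros Λ l δ) ∧
  ∀ B : ℝ, (∀ᶠ X : ℝ in atTop, meanSquare δ X ≤ B) → (1 / l ^ 2 - 1) * cE Λ ≤ B

/-- The part 3 for one `l`. -/
def SharpBound (Λ : ℂ → ℂ) (ρ l : ℝ) (δ : ℝ → ℝ) : Prop :=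
  (AtMost (meanSquare δ) ((1 + 1 / l ^ 2) * cE Λ) ↔ OrderRH Λ ρ ∧ Simple Λ) ∧
  (∀ B : ℝ, (∀ᶠ X : ℝ in atTop, meanSquare δ X ≤ B) → (1 + 1 / l ^ 2) * cE Λ ≤ B) ∧
  (OrderRH Λ ρ → 0 < cE Λ ∧ ∃ M : ℝ,
    HasSum (fun t : ℝ => (mult Λ t : ℝ) * ((mult Λ t : ℝ) - 1) / t ^ 2) M ∧
    Tendsto (meanSquare δ) atTop (𝓝 ((1 + 1 / l ^ 2) * (cE Λ + M))))

/-- The rate in the theorem of Rankin and Selberg which is used for the original windows. -/
def Rate (a b : ℤ) (l : ℝ) : Prop :=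
  Tendsto (fun x : ℝ => Real.log x * (squares a b x - squares a b (x ^ l))) atTop (𝓝 0)

/-! ### translation -/

open Pool.Agent.TH270.MS (BM Mc)
open Pool.Agent.TH270.MS.EQ (nQ alQ curve_mc growth_F mero_ord bm_star)
open Pool.Agent.Q5.MS (WL WV bm_wl)
open Pool.Agent.Q5.BP (bm_log mu BSq)
open Pool.Agent.Q5.AP (WinLaw win_pack win_packP winlaw_close mc_V star_win bm_star_rpow central gen_bound low
  ratios_countable)
open Pool.Agent.Results.MP_8b7eba_nt.OneWindow (hecke wv_eq)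
open Pool.Agent.Results.MP_92892c_nt.ExactMeanSquareRational (squares_eq)

theorem errStar_eq (a b : ℤ) (ρ : ℝ) {l : ℝ} (x : ℝ) :
    errStar a b ρ l x = Real.log (bsdStar a b x) - Real.log (bsdStar a b (x ^ l)) + ρ * Real.log l := by
  unfold errStar windowStar
  rw [Real.log_div (bsdStar_pos x).ne' (bsdStar_pos (x ^ l)).ne', one_div, Real.log_inv]
  ring

theorem bdd_iff {δ : ℝ → ℝ} : (∃ B : ℝ, ∀ᶠ X : ℝ in atTop, meanSquare δ X ≤ B) ↔
    BoundedMeanSquare δ := by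
  refine exists_congr fun B => eventually_congr ?_
  filter_upwards [eventually_gt_atTop 1] with X hX
  unfold meanSquare
  rw [div_le_iff₀ (Real.log_pos hX)]

/-- **One window of the product of Birch and Swinnerton-Dyer: the exact mean square and the sharp bound.** -/
theorem result (a b : ℤ) (hΔ : 4 * a ^ 3 + 27 * b ^ 2 ≠ 0) (F : ℂ → ℂ) (hF : IsLSeries a b F)
    (N : ℕ) [NeZero N] (f : CuspForm (Gamma0 N : Subgroup (GL (Fin 2) ℝ)) 2) (w : ℝ)
    (hf : IsFormOf a b N f w) :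
    ∃ Λ : ℂ → ℂ, IsCompleted f Λ ∧ (∀ Λ', IsCompleted f Λ' → Λ' = Λ) ∧
      (∀ s : ℂ, Λ (2 - s) = (w : ℂ) * Λ s) ∧ analyticOrderAt F 1 = ord Λ ∧
      (∀ l : ℝ, 0 < l → l < 1 → (∀ ρ : ℝ, Criterion Λ ρ l (errStar a b ρ l)) ∧
        (Rate a b l → ∀ ρ : ℝ, Criterion Λ ρ l (err a b ρ l)) ∧
        ((RH Λ ∧ F 1 ≠ 0) ↔ BoundedMeanSquare fun x => Real.log (windowStar a b l x))) ∧
      ∃ C : Set ℝ, C.Countable ∧ ∀ l : ℝ, 0 < l → l < 1 → l ∉ C →
        (∀ ρ : ℝ, SharpBound Λ ρ l (errStar a b ρ l)) ∧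
        (Rate a b l → ∀ ρ : ℝ, SharpBound Λ ρ l (err a b ρ l)) := by
  obtain ⟨Λ, hΛ, huniq, hfe, hlink, hord, hRH, hmult, hsum, hpos, hsimple⟩ := central hΔ hF hf
  obtain ⟨C₀, κ, hg⟩ := growth_F hΔ hF (hecke hf.form) fun p hp => hf.form.points p hp
  have H := curve_mc hF (by norm_num : (0 : ℝ) < 1 / 8) hg
  have hmu : ∀ t : ℝ, mu (fun s => F (1 + s)) t = mult Λ t := fun t => by
    rw [← hmult t]
    exact Pool.Agent.Q5.BP.mu_shift F 1 t
  have hz : (∀ s : ℂ, 0 < s.re → F (1 + s) ≠ 0) ↔ NoZeros F := by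
    refine ⟨fun h s hs => ?_, fun h s hs => h _ (by simpa using hs)⟩
    have := h (s - 1) (by simpa using hs)
    rwa [add_sub_cancel] at this
  have hP : ∀ ρ : ℝ, OrderRH Λ ρ ↔ ((∀ s : ℂ, 0 < s.re → F (1 + s) ≠ 0) ∧
      ∃ n : ℤ, ρ = n ∧ meromorphicOrderAt (fun s => F (1 + s)) 0 = n) := by
    intro ρ
    unfold OrderRH
    rw [hz, hRH, mero_ord hF.1 hord]
    refine and_congr_right fun _ => ⟨fun h => ⟨ord Λ, by exact_mod_cast h, rfl⟩, ?_⟩
    rintro ⟨n, h1, h2⟩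
    have h3 : ((ord Λ : ℕ) : ℤ) = n := by exact_mod_cast h2
    rw [h1, ← h3]
    push_cast
    rfl
  -- the laws
  have law1 : ∀ l : ℝ, 0 < l → l < 1 → ∀ ρ : ℝ, WinLaw (OrderRH Λ ρ) (mult Λ) l (errStar a b ρ l) := by
    intro l hl hl1 ρ
    refine winlaw_close (f := fun y => -WL (nQ a b) (alQ a b) ρ l y)
      (bm_log.mul (bm_wl H.E ρ hl1).neg) ?_ ?_ (win_pack H ρ hl hl1 (hP ρ) hmu fun y _ => rfl)
    · have h1 : BM (errStar a b ρ l) := Pool.Agent.TH270.MS.EQ.BM.congr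
        (((bm_star a b).sub (bm_star_rpow a b H.E hl hl1)).add (BM.const (ρ * Real.log l)))
        fun x _ => (errStar_eq a b ρ x).symm
      exact bm_log.mul h1
    · refine (star_win a b ρ hl).congr fun x => ?_
      rw [errStar_eq]
  have law2 : ∀ l : ℝ, 0 < l → l < 1 → Rate a b l → ∀ ρ : ℝ,
      WinLaw (OrderRH Λ ρ) (mult Λ) l (err a b ρ l) := by
    intro l hl hl1 hR ρ
    refine win_packP H ρ hl hl1 (hP ρ) hmu ?_ fun y hy => (wv_eq a b ρ hl1 hy).symm
    refine hR.congr fun x => ?_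
    rw [squares_eq, squares_eq]
  -- the sums
  have hV : RH Λ → ∃ V : ℝ, HasSum (fun t : ℝ => ((mult Λ t : ℝ) / t) ^ 2) V := by
    intro h
    obtain ⟨V, hV⟩ := mc_V H (hz.2 (hRH.1 h))
    refine ⟨V, ?_⟩
    simp only [hmu] at hV
    exact hV
  -- the criterion
  have crit : ∀ l : ℝ, 0 < l → l < 1 → ∀ (ρ : ℝ) (δ : ℝ → ℝ),
      WinLaw (OrderRH Λ ρ) (mult Λ) l δ → Criterion Λ ρ l δ := by
    intro l hl hl1 ρ δ hW
    obtain ⟨t, r⟩ := hW
    have hk : 0 < 1 / l ^ 2 - 1 := by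
      rw [sub_pos, lt_div_iff₀ (by positivity), one_mul]
      nlinarith
    have hlow : ∀ W : ℝ, RH Λ → HasSum (fun t : ℝ => (((mult Λ t : ℝ) - mult Λ (t / l)) / t) ^ 2) W →
        (1 / l ^ 2 - 1) * cE Λ ≤ W := by
      intro W h1 h2
      have h3 := low hl (hsum h1) h2
      calc (1 / l ^ 2 - 1) * cE Λ = cE Λ / l ^ 2 - cE Λ := by ring
        _ ≤ W := h3
    refine ⟨?_, r, fun B hB => ?_⟩
    · tfae_have 1 ↔ 2 := t.out 0 1
      tfae_have 1 → 3 := by
        intro h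
        obtain ⟨V, h1, h2⟩ := (t.out 0 2).1 h
        exact ⟨V, (mul_pos hk (hpos h.1)).trans_le (hlow V h.1 h1), h1, h2⟩
      tfae_have 3 → 1 := by
        rintro ⟨V, -, h1, h2⟩
        have h3 : OrderRH Λ ρ ↔ ∃ V : ℝ,
            HasSum (fun t : ℝ => (((mult Λ t : ℝ) - mult Λ (t / l)) / t) ^ 2) V ∧
            Tendsto (meanSquare δ) atTop (𝓝 V) := t.out 0 2
        exact h3.2 ⟨V, h1, h2⟩
      tfae_finish
    · have h1 : OrderRH Λ ρ := (t.out 0 1).2 (bdd_iff.1 ⟨B, hB⟩)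
      obtain ⟨V, h2, h3⟩ := (t.out 0 2).1 h1
      exact (hlow V h1.1 h2).trans (le_of_tendsto h3 hB)
  refine ⟨Λ, hΛ, huniq, hfe, hord, fun l hl hl1 => ⟨fun ρ => crit l hl hl1 ρ _ (law1 l hl hl1 ρ),
    fun hR ρ => crit l hl hl1 ρ _ (law2 l hl hl1 hR ρ), ?_⟩, ?_⟩
  · have h1 := (law1 l hl hl1 0).1.out 0 1
    have e : (fun x => Real.log (windowStar a b l x)) = errStar a b 0 l := by
      funext x
      unfold errStar
      rw [zero_mul, sub_zero]
    rw [e]
    refine Iff.trans ?_ h1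
    unfold OrderRH
    refine and_congr_right fun _ => ?_
    rw [← (hF.1.analyticAt 1).analyticOrderAt_eq_zero, hord]
    constructor
    · intro h
      have h2 : ord Λ = 0 := by exact_mod_cast h
      rw [h2]
      simp
    · intro h
      have h2 : ord Λ = 0 := by exact_mod_cast h.symm
      rw [h2]
      rfl
  · refine ⟨{l : ℝ | RH Λ ∧ 0 < l ∧ ∃ t : ℝ, t ≠ 0 ∧ mult Λ t ≠ 0 ∧ mult Λ (t / l) ≠ 0}, ?_, ?_⟩
    · by_cases hR : RH Λ
      · obtain ⟨V, hV⟩ := hV hR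
        refine (ratios_countable (Pool.Agent.Q5.AP.zeros_countable hV)).mono ?_
        rintro l ⟨-, h⟩
        exact h
      · refine Set.countable_empty.mono ?_
        rintro l ⟨h, -⟩
        exact absurd h hR
    · intro l hl hl1 hlC
      have hgen : RH Λ → ∀ t : ℝ, t ≠ 0 → mult Λ t = 0 ∨ mult Λ (t / l) = 0 := by
        intro hR t ht
        by_contra h
        push Not at h
        exact hlC ⟨hR, hl, t, ht, h.1, h.2⟩
      have main : ∀ (ρ : ℝ) (δ : ℝ → ℝ), WinLaw (OrderRH Λ ρ) (mult Λ) l δ → SharpBound Λ ρ l δ := by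
        intro ρ δ hW
        obtain ⟨t, -⟩ := hW
        obtain ⟨k1, k2, k3⟩ := gen_bound (P := OrderRH Λ ρ) (S := meanSquare δ) (m := mult Λ) hl
          (fun h => (t.out 0 2).1 h) (fun h => hV h.1) (fun h => (t.out 0 1).2 (bdd_iff.1 h))
          (fun h => hsum h.1) (fun h => hgen h.1)
        refine ⟨?_, k2, fun h => ?_⟩
        · have k1' : AtMost (meanSquare δ) ((1 + 1 / l ^ 2) * cE Λ) ↔
            OrderRH Λ ρ ∧ ∀ t : ℝ, t ≠ 0 → mult Λ t ≤ 1 := k1
          rw [k1']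
          exact and_congr_right fun h => (hsimple h.1).symm
        · obtain ⟨M, h1, -, h2⟩ := k3 h
          exact ⟨hpos h.1, M, h1, h2⟩
      exact ⟨fun ρ => main ρ _ (law1 l hl hl1 ρ), fun hR ρ => main ρ _ (law2 l hl hl1 hR ρ)⟩

end Pool.Agent.Results.MP_8b7eba_nt.SharpWindow
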