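import Pool.Agent.Y18.BSD.Main
import Pool.Agent.Y18.NF.El

/-!
# A positive proportion of the twists of several curves at once, in every group of twists

`E_i : y² = x³ + a_i x + b_i` (`i = 1, …, m`) are elliptic curves over `ℚ`, given with their newforms, and
for each of them ONE twist `E_i^{(D_i)}`, `D_i = ∏_{q ∈ B_i} ±q ≡ 1 mod 4`, ramified at primes of good
reduction, has `L(E_i^{(D_i)}, 1) ≠ 0`; the `D_i` may be different. A prime `q` is admissible if for all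
`i` it is prime to `2 Δ_i D_i` and `x³ + a_i x + b_i` has no root modulo `q` (`#E_i(F_q)` is odd). For a
finite set `T` of primes let `|T|` be the product of its elements, and `T^* = ∏_{q ∈ T} ±q ≡ 1 mod 4` the
discriminant. A set `T` of admissible primes is good if `L(E_i^{(D_i T^*)}, 1) ≠ 0` for ALL `i`. By the
theorem of Gross-Zagier and Kolyvagin the equivalence of the problem then holds for the `m` curves
`E_i^{(D_i T^*)}` (they have finitely many rational points).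

There is a number `V`, which depends only on the curves and the `D_i`, such that for EVERY group `H` of finite
sets of admissible primes (a set of finite sets which contains `∅` and is closed under the symmetric
difference, that is, a group of square classes; for instance all the finite sets of elements of an
arbitrary set of admissible primes, however thin) the following holds.

* If `H` is finite, then at least `|H| / 2 ^ V` elements of `H` are good.
* There is a constant `C` such that `#{T ∈ H : |T| ≤ X} ≤ 2 ^ V #{T ∈ H good : |T| ≤ C X}` for all `X`.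
* There is a constant `c > 0` such that for all large `X` the good `T ∈ H`, `|T| ≤ X`, make up at least the
  proportion `c` of all the `T ∈ H`, `|T| ≤ X`, counted with the weights `1 / |T|`: the good discriminants
  have positive lower logarithmic density in `H`.

The proof: the starting library `Pool.Agent.Y18.BSD` (a 2-adic uncertainty principle for modular symbols)
gives a group `K ⊂ H` of at most `2 ^ V` elements such that each `T ∈ H` becomes good after addition of an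
element of `K`. The counting is done here; the primes of the numbers `|T|`, `|T'|` of different sets are
different, so the weights between `X / C` and `X` sum up to `O(1)`.
-/

set_option autoImplicit false

open UpperHalfPlane MatrixGroups CongruenceSubgroup
open scoped symmDiff

namespace Pool.Agent.Results.MP_8b7eba_nt.SimultaneousTwists

open Pool.Agent.Y18.BSD (IsFormOf)
open Pool.Agent.W263.BSD (GoodPrime IsLSeries)

/-- `L(E, 1) ≠ 0` for `E : y² = x³ + a x + b`: there is an entire function `F` which for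
`Re s > 3/2` is the L-series `∏_{p ∤ 2Δ} (1 - a_p p^{-s} + p^{1-2s})⁻¹` of the problem, and `F(1) ≠ 0`. -/
def Nonvanishing (a b : ℤ) : Prop := ∃ F : ℂ → ℂ, IsLSeries a b F ∧ F 1 ≠ 0

/-- `T^* = ∏_{q ∈ T} (-1)^((q-1)/2) q` -/
def star (T : Finset ℕ) : ℤ := ∏ q ∈ T, (-1 : ℤ) ^ ((q - 1) / 2) * q

/-- `|T| = ∏_{q ∈ T} q` -/
def size (T : Finset ℕ) : ℕ := ∏ q ∈ T, q

/-- `q` is admissible for `y² = x³ + a x + b` and the set `B`: `q ∤ 2Δ`, `q ∉ B`, and `x³ + a x + b` has no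
root modulo `q` -/
def Admissible (a b : ℤ) (B : Finset ℕ) (q : ℕ) : Prop :=
  (GoodPrime a b q ∧ ∀ x : ZMod q, x ^ 3 + (a : ZMod q) * x + (b : ZMod q) ≠ 0) ∧ q ∉ B

/-- `H` is a group of finite sets of primes admissible for all the curves -/
structure IsGroup {m : ℕ} (a b : Fin m → ℤ) (B : Fin m → Finset ℕ) (H : Set (Finset ℕ)) : Prop where
  empty : ∅ ∈ H
  add : ∀ S ∈ H, ∀ T ∈ H, S ∆ T ∈ H
  prime : ∀ T ∈ H, ∀ q ∈ T, q.Prime
  admissible : ∀ T ∈ H, ∀ q ∈ T, ∀ i, Admissible (a i) (b i) (B i) q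

/-- `T` is good: the central value of the twist by `D_i T^*` of `E_i` is not zero, for all `i` -/
def Good {m : ℕ} (a b : Fin m → ℤ) (B : Fin m → Finset ℕ) (T : Finset ℕ) : Prop :=
  ∀ i, Nonvanishing (a i * (star (B i) * star T) ^ 2) (b i * (star (B i) * star T) ^ 3)

/-- the number of the `T` in the set `A` with `|T| ≤ X` -/
noncomputable def count (A : Set (Finset ℕ)) (X : ℕ) : ℕ := {T | T ∈ A ∧ size T ≤ X}.ncard

/-- the sum of `1 / |T|` over the `T` in the set `A` with `|T| ≤ X` -/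
noncomputable def weight (A : Set (Finset ℕ)) (X : ℕ) : ℝ :=
  ∑ᶠ T ∈ {T | T ∈ A ∧ size T ≤ X}, 1 / (size T : ℝ)

section counting

lemma size_pos {T : Finset ℕ} (hT : ∀ q ∈ T, q.Prime) : 0 < size T :=
  Finset.prod_pos fun q hq => (hT q hq).pos

lemma mem_iff {T : Finset ℕ} (hT : ∀ q ∈ T, q.Prime) {q : ℕ} (hq : q.Prime) :
    q ∈ T ↔ q ∣ size T := by
  constructor
  · intro h
    exact Finset.dvd_prod_of_mem _ h
  · intro h
    obtain ⟨r, hr, h1⟩ := (Nat.prime_iff.1 hq).exists_mem_finset_dvd h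
    rwa [(Nat.prime_dvd_prime_iff_eq hq (hT r hr)).1 h1]

lemma size_inj {S T : Finset ℕ} (hS : ∀ q ∈ S, q.Prime) (hT : ∀ q ∈ T, q.Prime)
    (h : size S = size T) : S = T := by
  ext q
  constructor
  · intro hq
    rw [mem_iff hT (hS q hq), ← h, ← mem_iff hS (hS q hq)]
    exact hq
  · intro hq
    rw [mem_iff hS (hT q hq), h, ← mem_iff hT (hT q hq)]
    exact hq

lemma size_symm {S T : Finset ℕ} (hS : ∀ q ∈ S, q.Prime) (hT : ∀ q ∈ T, q.Prime) :
    size (S ∆ T) ≤ size S * size T := by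
  classical
  have h1 : size (S ∆ T) = size (S \ T) * size (T \ S) := by
    unfold size
    rw [show S ∆ T = (S \ T) ∪ (T \ S) from rfl, Finset.prod_union]
    exact Finset.disjoint_left.2 fun x hx hx' =>
      (Finset.mem_sdiff.1 hx).2 (Finset.mem_sdiff.1 hx').1
  have h2 : ∀ {A B : Finset ℕ}, (∀ q ∈ B, q.Prime) → A ⊆ B → size A ≤ size B := by
    intro A B hB hAB
    exact Nat.le_of_dvd (size_pos hB) (Finset.prod_dvd_prod_of_subset _ _ _ hAB)
  rw [h1]
  exact Nat.mul_le_mul (h2 hS Finset.sdiff_subset) (h2 hT Finset.sdiff_subset)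

/-- the sets of primes of bounded size are finite in number -/
lemma finite_size {A : Set (Finset ℕ)} (hA : ∀ T ∈ A, ∀ q ∈ T, q.Prime) (X : ℕ) :
    {T | T ∈ A ∧ size T ≤ X}.Finite := by
  refine (Finset.finite_toSet (Finset.range (X + 1)).powerset).subset ?_
  rintro T ⟨hT, hX⟩
  rw [Finset.mem_coe, Finset.mem_powerset]
  intro q hq
  have h1 := Nat.le_of_dvd (size_pos (hA T hT)) (Finset.dvd_prod_of_mem (fun q : ℕ => q) hq)
  rw [Finset.mem_range]
  have h2 : q ≤ size T := h1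
  omega

variable {H G : Set (Finset ℕ)} {K : Finset (Finset ℕ)} {C : ℕ}

/-- the map `T ↦ (k, T + k)` -/
lemma exists_map (hH : ∀ T ∈ H, ∀ q ∈ T, q.Prime) (hc : ∀ S ∈ H, ∀ T ∈ H, S ∆ T ∈ H)
    (hKH : ∀ T ∈ K, T ∈ H) (hK : ∀ T ∈ H, ∃ k ∈ K, T ∆ k ∈ G) (hC : ∀ k ∈ K, size k ≤ C) (X : ℕ) :
    ∃ φ : Finset ℕ → Finset ℕ × Finset ℕ,
      (∀ T, T ∈ H → size T ≤ X → (φ T).1 ∈ K ∧ (φ T).2 ∈ H ∧ (φ T).2 ∈ G ∧
        size (φ T).2 ≤ C * X ∧ size (φ T).2 ≤ C * size T) ∧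
      ∀ S T, φ S = φ T → S ∈ H → T ∈ H → S = T := by
  classical
  choose! k hk1 hk2 using hK
  refine ⟨fun T => (k T, T ∆ k T), fun T hT hX => ?_, fun S T h _ _ => ?_⟩
  · have h1 : size (T ∆ k T) ≤ C * size T := by
      refine (size_symm (hH T hT) (hH _ (hKH _ (hk1 T hT)))).trans ?_
      rw [mul_comm]
      exact Nat.mul_le_mul_right _ (hC _ (hk1 T hT))
    exact ⟨hk1 T hT, hc T hT _ (hKH _ (hk1 T hT)), hk2 T hT,
      h1.trans (Nat.mul_le_mul_left _ hX), h1⟩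
  · have h1 : k S = k T := congrArg Prod.fst h
    have h2 : S ∆ k S = T ∆ k T := congrArg Prod.snd h
    rw [h1] at h2
    exact symmDiff_left_injective (k T) h2

lemma count_le (hH : ∀ T ∈ H, ∀ q ∈ T, q.Prime) (hc : ∀ S ∈ H, ∀ T ∈ H, S ∆ T ∈ H)
    (hKH : ∀ T ∈ K, T ∈ H) (hK : ∀ T ∈ H, ∃ k ∈ K, T ∆ k ∈ G) (hC : ∀ k ∈ K, size k ≤ C) (X : ℕ) :
    count H X ≤ K.card * count {T | T ∈ H ∧ T ∈ G} (C * X) := by
  classical
  obtain ⟨φ, h1, h2⟩ := exists_map hH hc hKH hK hC X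
  have hfin := finite_size hH X
  have hfin2 := finite_size (A := {T | T ∈ H ∧ T ∈ G}) (fun T hT => hH T hT.1) (C * X)
  unfold count
  have h3 : (K : Set (Finset ℕ)).ncard = K.card := Set.ncard_coe_finset K
  rw [← h3, ← Set.ncard_prod]
  refine Set.ncard_le_ncard_of_injOn φ ?_ ?_ (K.finite_toSet.prod hfin2)
  · rintro T ⟨hT, hX⟩
    obtain ⟨g1, g2, g3, g4, -⟩ := h1 T hT hX
    exact ⟨g1, ⟨g2, g3⟩, g4⟩
  · rintro S ⟨hS, -⟩ T ⟨hT, -⟩ h
    exact h2 S T h hS hT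

lemma weight_eq {A : Set (Finset ℕ)} (hA : ∀ T ∈ A, ∀ q ∈ T, q.Prime) (X : ℕ) :
    weight A X = ∑ T ∈ (finite_size hA X).toFinset, 1 / (size T : ℝ) := by
  unfold weight
  exact finsum_mem_eq_finite_toFinset_sum _ (finite_size hA X)

lemma weight_le (hH : ∀ T ∈ H, ∀ q ∈ T, q.Prime) (hc : ∀ S ∈ H, ∀ T ∈ H, S ∆ T ∈ H)
    (hKH : ∀ T ∈ K, T ∈ H) (hK : ∀ T ∈ H, ∃ k ∈ K, T ∆ k ∈ G) (hC : ∀ k ∈ K, size k ≤ C) (X : ℕ) :
    weight H X ≤ C * (K.card * weight {T | T ∈ H ∧ T ∈ G} (C * X)) := by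
  classical
  obtain ⟨φ, h1, h2⟩ := exists_map hH hc hKH hK hC X
  have hA2 : ∀ T ∈ {T | T ∈ H ∧ T ∈ G}, ∀ q ∈ T, q.Prime := fun T hT => hH T hT.1
  rw [weight_eq hH, weight_eq hA2]
  have e1 : (K.card : ℝ) * ∑ T ∈ (finite_size hA2 (C * X)).toFinset, 1 / (size T : ℝ) =
      ∑ p ∈ K ×ˢ (finite_size hA2 (C * X)).toFinset, 1 / (size p.2 : ℝ) := by
    rw [Finset.sum_product]
    simp only [Finset.sum_const, nsmul_eq_mul]
  rw [e1, Finset.mul_sum]
  have e2 : ∑ T ∈ (finite_size hH X).toFinset, 1 / (size T : ℝ) ≤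
      ∑ T ∈ (finite_size hH X).toFinset, (C : ℝ) * (1 / (size (φ T).2 : ℝ)) := by
    refine Finset.sum_le_sum fun T hT => ?_
    rw [Set.Finite.mem_toFinset] at hT
    obtain ⟨g1, g2, g3, g4, g5⟩ := h1 T hT.1 hT.2
    have p1 : (0 : ℝ) < size T := by exact_mod_cast size_pos (hH T hT.1)
    have p2 : (0 : ℝ) < size (φ T).2 := by exact_mod_cast size_pos (hH _ g2)
    rw [mul_one_div, div_le_div_iff₀ p1 p2, one_mul]
    exact_mod_cast g5
  refine e2.trans ?_
  rw [← Finset.sum_image (s := (finite_size hH X).toFinset) (g := φ)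
    (f := fun p : Finset ℕ × Finset ℕ => (C : ℝ) * (1 / (size p.2 : ℝ)))]
  · refine Finset.sum_le_sum_of_subset_of_nonneg ?_ fun p _ _ => by positivity
    intro p hp
    rw [Finset.mem_image] at hp
    obtain ⟨T, hT, rfl⟩ := hp
    rw [Set.Finite.mem_toFinset] at hT
    obtain ⟨g1, g2, g3, g4, g5⟩ := h1 T hT.1 hT.2
    rw [Finset.mem_product, Set.Finite.mem_toFinset]
    exact ⟨g1, ⟨g2, g3⟩, g4⟩
  · intro S hS T hT h
    rw [Finset.mem_coe, Set.Finite.mem_toFinset] at hS hT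
    exact h2 S T h hS.1 hT.1

/-- the weights between `Y` and `X` -/
lemma weight_tail (hH : ∀ T ∈ H, ∀ q ∈ T, q.Prime) {X Y : ℕ} :
    weight H X ≤ weight H Y + ∑ n ∈ Finset.Ioc Y X, 1 / (n : ℝ) := by
  classical
  rw [weight_eq hH, weight_eq hH]
  have e1 : ∑ T ∈ (finite_size hH X).toFinset, 1 / (size T : ℝ) =
      ∑ T ∈ (finite_size hH X).toFinset.filter (fun T => size T ≤ Y), 1 / (size T : ℝ) +
      ∑ T ∈ (finite_size hH X).toFinset.filter (fun T => ¬ size T ≤ Y), 1 / (size T : ℝ) :=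
    (Finset.sum_filter_add_sum_filter_not _ _ _).symm
  rw [e1]
  refine add_le_add ?_ ?_
  · refine Finset.sum_le_sum_of_subset_of_nonneg ?_ fun p _ _ => by positivity
    intro T hT
    rw [Finset.mem_filter, Set.Finite.mem_toFinset] at hT
    rw [Set.Finite.mem_toFinset]
    exact ⟨hT.1.1, hT.2⟩
  · rw [← Finset.sum_image (g := size) (f := fun n : ℕ => 1 / (n : ℝ))]
    · refine Finset.sum_le_sum_of_subset_of_nonneg ?_ fun p _ _ => by positivity
      intro n hn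
      rw [Finset.mem_image] at hn
      obtain ⟨T, hT, rfl⟩ := hn
      rw [Finset.mem_filter, Set.Finite.mem_toFinset] at hT
      rw [Finset.mem_Ioc]
      exact ⟨not_le.1 hT.2, hT.1.2⟩
    · intro S hS T hT h
      rw [Finset.mem_coe, Finset.mem_filter, Set.Finite.mem_toFinset] at hS hT
      exact size_inj (hH S hS.1.1) (hH T hT.1.1) h

lemma sum_Ioc_le {X Y C : ℕ} (hY : 0 < Y) (hC : X ≤ C * Y) :
    ∑ n ∈ Finset.Ioc Y X, 1 / (n : ℝ) ≤ C := by
  have h1 : ∀ n ∈ Finset.Ioc Y X, 1 / (n : ℝ) ≤ 1 / (Y : ℝ) := by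
    intro n hn
    rw [Finset.mem_Ioc] at hn
    have p1 : (0 : ℝ) < Y := by exact_mod_cast hY
    exact one_div_le_one_div_of_le p1 (by exact_mod_cast hn.1.le)
  refine (Finset.sum_le_sum h1).trans ?_
  rw [Finset.sum_const, Nat.card_Ioc, nsmul_eq_mul]
  have p1 : (0 : ℝ) < Y := by exact_mod_cast hY
  rw [mul_one_div, div_le_iff₀ p1]
  have h2 : X - Y ≤ C * Y := by omega
  exact_mod_cast h2

/-- the positive proportion -/
lemma proportion (hH : ∀ T ∈ H, ∀ q ∈ T, q.Prime) (hc : ∀ S ∈ H, ∀ T ∈ H, S ∆ T ∈ H)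
    (h0 : ∅ ∈ H) (hKH : ∀ T ∈ K, T ∈ H) (hK : ∀ T ∈ H, ∃ k ∈ K, T ∆ k ∈ G) :
    ∃ c : ℝ, 0 < c ∧ ∃ X₀ : ℕ, ∀ X : ℕ, X₀ ≤ X →
      c * weight H X ≤ weight {T | T ∈ H ∧ T ∈ G} X := by
  classical
  obtain ⟨C, hC⟩ : ∃ C : ℕ, C = K.sup size := ⟨_, rfl⟩
  have hC1 : ∀ k ∈ K, size k ≤ C := fun k hk => hC ▸ Finset.le_sup hk
  obtain ⟨k0, hk0, hk0'⟩ := hK ∅ h0
  have hkG : k0 ∈ G := by
    have : ∅ ∆ k0 = k0 := bot_symmDiff k0
    rwa [this] at hk0'
  have hCpos : 0 < C := lt_of_lt_of_le (size_pos (hH k0 (hKH k0 hk0))) (hC1 k0 hk0)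
  have hCr : (0 : ℝ) < C := by exact_mod_cast hCpos
  have hA2 : ∀ T ∈ {T | T ∈ H ∧ T ∈ G}, ∀ q ∈ T, q.Prime := fun T hT => hH T hT.1
  have hKc : 0 < K.card := Finset.card_pos.2 ⟨k0, hk0⟩
  have hKr : (0 : ℝ) < K.card := by exact_mod_cast hKc
  refine ⟨1 / (C * K.card + 2 * C * C), by positivity, 2 * C, fun X hX => ?_⟩
  -- `Y = X / C`
  obtain ⟨Y, hY⟩ : ∃ Y : ℕ, Y = X / C := ⟨_, rfl⟩
  have hY0 : 0 < Y := by
    rw [hY]
    exact Nat.div_pos (by omega) hCpos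
  have hCY : C * Y ≤ X := by
    rw [hY]
    exact Nat.mul_div_le X C
  have hXY : X ≤ 2 * C * Y := by
    have h1 : X < C * (X / C + 1) := Nat.lt_mul_div_succ X hCpos
    rw [← hY] at h1
    nlinarith
  -- one good set
  have hone : 1 / (C : ℝ) ≤ weight {T | T ∈ H ∧ T ∈ G} X := by
    rw [weight_eq hA2]
    have h1 : k0 ∈ (finite_size hA2 X).toFinset := by
      rw [Set.Finite.mem_toFinset]
      exact ⟨⟨hKH k0 hk0, hkG⟩, (hC1 k0 hk0).trans (by omega)⟩
    refine le_trans ?_ (Finset.single_le_sum (f := fun T : Finset ℕ => 1 / (size T : ℝ))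
      (fun T _ => by positivity) h1)
    have p2 : (0 : ℝ) < size k0 := by exact_mod_cast size_pos (hH k0 (hKH k0 hk0))
    exact one_div_le_one_div_of_le p2 (by exact_mod_cast hC1 k0 hk0)
  have hmono : weight {T | T ∈ H ∧ T ∈ G} (C * Y) ≤ weight {T | T ∈ H ∧ T ∈ G} X := by
    rw [weight_eq hA2, weight_eq hA2]
    refine Finset.sum_le_sum_of_subset_of_nonneg ?_ fun p _ _ => by positivity
    intro T hT
    rw [Set.Finite.mem_toFinset] at hT ⊢
    exact ⟨hT.1, hT.2.trans hCY⟩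
  have h1 := weight_tail hH (X := X) (Y := Y)
  have h2 := weight_le hH hc hKH hK hC1 Y
  have h3 := sum_Ioc_le hY0 hXY
  push_cast at h3
  set W := weight {T | T ∈ H ∧ T ∈ G} X with hW
  have h4 : weight H X ≤ C * (K.card * W) + 2 * C * (C * W) := by
    have h5 : (C : ℝ) * (K.card * weight {T | T ∈ H ∧ T ∈ G} (C * Y)) ≤ C * (K.card * W) := by
      gcongr
    have h6 : (1 : ℝ) ≤ C * W := by
      rw [div_le_iff₀ hCr] at hone
      linarith
    have h7 : 2 * (C : ℝ) ≤ 2 * C * (C * W) := by nlinarith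
    linarith
  rw [one_div, inv_mul_le_iff₀ (by positivity)]
  refine h4.trans (le_of_eq ?_)
  ring

lemma finite_le (hc : ∀ S ∈ H, ∀ T ∈ H, S ∆ T ∈ H)
    (hKH : ∀ T ∈ K, T ∈ H) (hK : ∀ T ∈ H, ∃ k ∈ K, T ∆ k ∈ G) (hfin : H.Finite) :
    H.ncard ≤ K.card * {T | T ∈ H ∧ T ∈ G}.ncard := by
  classical
  choose! k hk1 hk2 using hK
  have h3 : (K : Set (Finset ℕ)).ncard = K.card := Set.ncard_coe_finset K
  rw [← h3, ← Set.ncard_prod]
  refine Set.ncard_le_ncard_of_injOn (fun T => (k T, T ∆ k T)) ?_ ?_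
    (K.finite_toSet.prod (hfin.subset fun T hT => hT.1))
  · intro T hT
    exact ⟨hk1 T hT, hc T hT _ (hKH _ (hk1 T hT)), hk2 T hT⟩
  · intro S _ T _ h
    have h1 : k S = k T := congrArg Prod.fst h
    have h2 : S ∆ k S = T ∆ k T := congrArg Prod.snd h
    rw [h1] at h2
    exact symmDiff_left_injective (k T) h2

end counting

/-- **Simultaneous nonvanishing: a positive proportion in every group of twists.** -/
theorem result :
    (∀ (m : ℕ) (a b : Fin m → ℤ), (∀ i, 4 * a i ^ 3 + 27 * b i ^ 2 ≠ 0) →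
      ∀ N : Fin m → ℕ, (∀ i, N i ≠ 0) →
      ∀ f : (i : Fin m) → CuspForm (Gamma0 (N i) : Subgroup (GL (Fin 2) ℝ)) 2,
      (∀ i, IsFormOf (a i) (b i) (N i) (f i)) →
      ∀ B : Fin m → Finset ℕ, (∀ i, ∀ q ∈ B i, GoodPrime (a i) (b i) q) →
      (∀ i, Nonvanishing (a i * star (B i) ^ 2) (b i * star (B i) ^ 3)) →
      ∃ V : ℕ, ∀ H : Set (Finset ℕ), IsGroup a b B H →
        (H.Finite → H.ncard ≤ 2 ^ V * {T | T ∈ H ∧ Good a b B T}.ncard) ∧
        (∃ C : ℕ, ∀ X : ℕ, count H X ≤ 2 ^ V * count {T | T ∈ H ∧ Good a b B T} (C * X)) ∧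
        ∃ c : ℝ, 0 < c ∧ ∃ X₀ : ℕ, ∀ X : ℕ, X₀ ≤ X →
          c * weight H X ≤ weight {T | T ∈ H ∧ Good a b B T} X) ∧
    (∃ f : CuspForm (Gamma0 11 : Subgroup (GL (Fin 2) ℝ)) 2,
      IsFormOf (-13392) (-1080432) 11 f) ∧
    Nonvanishing (-13392) (-1080432) := by
  refine ⟨?_, ⟨_, Pool.Agent.Y18.BSD.Eleven.isFormOf⟩, Pool.Agent.Y18.NF.rankZero11⟩
  intro m a b hΔ N hN f hf B hB h0
  have : ∀ i, NeZero (N i) := fun i => ⟨hN i⟩
  obtain ⟨V, hV⟩ := Pool.Agent.Y18.BSD.main m a b hΔ N f hf B hB h0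
  refine ⟨V, fun H hH => ?_⟩
  obtain ⟨K, hK1, hK2, hK3, hK4, hK5⟩ := hV H hH.empty hH.add hH.admissible
  have hp : ∀ T ∈ H, ∀ q ∈ T, q.Prime := hH.prime
  have hK : ∀ T ∈ H, ∃ k ∈ K, T ∆ k ∈ {T | Good a b B T} := fun T hT => hK5 T hT
  refine ⟨fun hfin => ?_, ?_, ?_⟩
  · exact (finite_le hH.add hK4 hK hfin).trans (Nat.mul_le_mul_right _ hK1)
  · refine ⟨K.sup size, fun X => ?_⟩
    exact (count_le hp hH.add hK4 hK (fun k hk => Finset.le_sup hk) X).trans
      (Nat.mul_le_mul_right _ hK1)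
  · exact proportion hp hH.add hH.empty hK4 hK

end Pool.Agent.Results.MP_8b7eba_nt.SimultaneousTwists
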